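import Pool.Agent.W169.AF.Stm

/-! AF-MV1: mean square of `L M - 1`. -/

set_option autoImplicit false

namespace Pool.Agent.W683.AF

open Finset
open Pool.Agent.W169.AF
open Pool.Agent.H24R2.DZ (bb mo cc yy SMo ph)

/-! ### the coefficients -/

theorem ph_one_of {u : ℝ} (h : u ≤ 1 / 2) : ph u = 1 :=
  Real.smoothTransition.one_of_one_le (by linarith)

theorem bb_one (θ L : ℝ) (β : ℂ) : bb θ L β 1 = 1 := by
  unfold bb mo
  have : ph (Real.log ((1 : ℕ) : ℝ) / (θ * L)) = 1 := by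
    apply ph_one_of; simp
  rw [this]
  simp

theorem cc_one (θ L : ℝ) (β : ℂ) : cc (bb θ L β) 1 = 1 := by
  unfold cc
  rw [Nat.divisors_one, Finset.sum_singleton, bb_one]

theorem cc_zero (θ T : ℝ) (hθ : 0 < θ) (hT : 1 < T) (n : ℕ) (hn : 2 ≤ n)
    (hh : (n : ℝ) ≤ T ^ (θ / 2)) : cc (bb θ (Real.log T) 0) n = 0 := by
  have hL : 0 < Real.log T := Real.log_pos hT
  unfold cc
  have h1 : ∀ h ∈ n.divisors, bb θ (Real.log T) 0 h = ((ArithmeticFunction.moebius h : ℤ) : ℂ) := by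
    intro h hd
    have hd1 : h ≤ n := Nat.divisor_le hd
    have hpos : 0 < h := Nat.pos_of_mem_divisors hd
    unfold bb mo
    have h2 : ph (Real.log h / (θ * Real.log T)) = 1 := by
      apply ph_one_of
      rw [div_le_iff₀ (by positivity)]
      have h3 : Real.log h ≤ Real.log (T ^ (θ / 2)) := by
        apply Real.log_le_log (by exact_mod_cast hpos)
        calc (h : ℝ) ≤ n := by exact_mod_cast hd1
          _ ≤ _ := hh
      rw [Real.log_rpow (by linarith)] at h3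
      linarith
    rw [h2]
    simp
  rw [Finset.sum_congr rfl h1]
  have h4 : ∑ i ∈ n.divisors, ArithmeticFunction.moebius i = 0 := by
    have := ArithmeticFunction.coe_mul_zeta_apply (f := ArithmeticFunction.moebius) (x := n)
    rw [ArithmeticFunction.moebius_mul_coe_zeta] at this
    rw [← this, ArithmeticFunction.one_apply_ne (by omega)]
  exact_mod_cast h4

/-! ### sums over the family -/

theorem FS_mono {Q : ℕ} {f g : (q : ℕ) → DirichletCharacter ℂ q → ℝ}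
    (h : ∀ q ∈ Icc 2 Q, ∀ χ ∈ PC q, f q χ ≤ g q χ) : FS Q f ≤ FS Q g :=
  sum_le_sum fun q hq => sum_le_sum fun χ hχ => h q hq χ hχ

theorem FS_lin (Q : ℕ) (f g : (q : ℕ) → DirichletCharacter ℂ q → ℝ) (a b : ℝ) :
    FS Q (fun q χ => a * f q χ + b * g q χ) = a * FS Q f + b * FS Q g := by
  unfold FS
  rw [mul_sum, mul_sum, ← sum_add_distrib]
  refine sum_congr rfl fun q _ => ?_
  rw [mul_sum, mul_sum, ← sum_add_distrib]

theorem card_PC (q : ℕ) (hq : 1 ≤ q) : ((PC q).card : ℝ) ≤ q := by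
  have : NeZero q := ⟨by omega⟩
  have h1 : (PC q).card ≤ Nat.card (DirichletCharacter ℂ q) := by
    rw [Nat.card_eq_fintype_card]
    exact Finset.card_le_univ _
  rw [DirichletCharacter.card_eq_totient_of_hasEnoughRootsOfUnity ℂ q] at h1
  exact_mod_cast h1.trans (Nat.totient_le q)

theorem FS_one (Q : ℕ) : FS Q (fun _ _ => 1) ≤ (Q : ℝ) ^ 2 := by
  unfold FS
  have h1 : ∀ q ∈ Icc 2 Q, ∑ χ ∈ PC q, (1 : ℝ) ≤ Q := by
    intro q hq
    rw [mem_Icc] at hq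
    rw [sum_const, nsmul_eq_mul, mul_one]
    exact (card_PC q (by omega)).trans (by exact_mod_cast hq.2)
  refine (sum_le_sum h1).trans ?_
  rw [sum_const, nsmul_eq_mul, Nat.card_Icc]
  have h2 : ((Q + 1 - 2 : ℕ) : ℝ) ≤ Q := by
    have : Q + 1 - 2 ≤ Q := by omega
    exact_mod_cast this
  have h3 : (0 : ℝ) ≤ Q := by positivity
  nlinarith

theorem FS_sieve (Q N : ℕ) (α : ℕ → ℂ) :
    FS Q (fun q χ => ‖∑ n ∈ Icc 1 N, α n * χ (n : ZMod q)‖ ^ 2) ≤
      6 * (N + (Q : ℝ) ^ 2) * ∑ n ∈ Icc 1 N, ‖α n‖ ^ 2 := by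
  refine le_trans ?_ (Pool.Agent.Helper112.mult_large_sieve N Q α)
  unfold FS
  have hsub : Icc 2 Q ⊆ Icc 1 Q := Icc_subset_Icc_left (by norm_num)
  refine le_trans ?_ (sum_le_sum_of_subset_of_nonneg hsub ?_)
  · refine sum_le_sum fun q hq => ?_
    rw [mem_Icc] at hq
    have ht : (0 : ℝ) < Nat.totient q := by exact_mod_cast Nat.totient_pos.2 (by omega)
    have h1 : 1 ≤ (q : ℝ) / (Nat.totient q : ℝ) := by
      rw [le_div_iff₀ ht, one_mul]
      exact_mod_cast Nat.totient_le q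
    have h2 : 0 ≤ ∑ χ ∈ PC q, ‖∑ n ∈ Icc 1 N, α n * χ (n : ZMod q)‖ ^ 2 :=
      sum_nonneg fun _ _ => by positivity
    calc _ = 1 * ∑ χ ∈ PC q, ‖∑ n ∈ Icc 1 N, α n * χ (n : ZMod q)‖ ^ 2 := (one_mul _).symm
      _ ≤ _ := mul_le_mul_of_nonneg_right h1 h2
  · intro q _ _
    exact mul_nonneg (by positivity) (sum_nonneg fun _ _ => by positivity)

/-! ### the Dirichlet polynomial -/

/-- the coefficients of `SX - 1` -/
noncomputable def al (θ : ℝ) (Q : ℕ) (s : ℂ) (n : ℕ) : ℂ :=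
  if n = 1 then 0 else cc (bb θ (Real.log Q) 0) n * (n : ℂ) ^ (-s)

theorem SX_sub (θ : ℝ) (Q q : ℕ) (hQ : 1 ≤ NQ Q) (χ : DirichletCharacter ℂ q) (s : ℂ) :
    SX θ Q q χ s 0 - 1 = ∑ n ∈ Icc 1 (NQ Q), al θ Q s n * χ (n : ZMod q) := by
  unfold SX
  have hmem : 1 ∈ Icc 1 (NQ Q) := mem_Icc.2 ⟨le_rfl, hQ⟩
  rw [← add_sum_erase _ _ hmem, ← add_sum_erase _ (fun n => al θ Q s n * χ (n : ZMod q)) hmem]
  have h1 : cc (bb θ (Real.log Q) 0) 1 * χ ((1 : ℕ) : ZMod q) * ((1 : ℕ) : ℂ) ^ (-s) = 1 := by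
    rw [cc_one, Nat.cast_one, Nat.cast_one, map_one, Complex.one_cpow]
    norm_num
  have h2 : al θ Q s 1 = 0 := by simp [al]
  rw [h1, h2, zero_mul, zero_add, add_sub_cancel_left]
  refine sum_congr rfl fun n hn => ?_
  have hn1 : n ≠ 1 := (mem_erase.1 hn).1
  unfold al
  rw [if_neg hn1]
  ring

theorem al_term (θ σ L : ℝ) (Q : ℕ) (hθ : 0 < θ) (hQ : 3 ≤ Q) (hL : L = Real.log Q) (s : ℂ)
    (hσ : s.re = σ) (hσ1 : 1 / 2 ≤ σ) (n : ℕ) (hn : 1 ≤ n) (hN : n ≤ NQ Q) :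
    ‖al θ Q s n‖ ^ 2 ≤ (5 * Real.exp (-(θ * (σ - 1 / 2) * L))) *
      ((n : ℝ) ^ (-(1 + 1 / L)) * ‖cc (bb θ L 0) n‖ ^ 2) := by
  have hQ1 : (1 : ℝ) < Q := by exact_mod_cast (by omega : 1 < Q)
  have hQ0 : (0 : ℝ) < Q := by linarith
  have hL0 : 0 < L := by
    rw [hL]
    exact Real.log_pos hQ1
  have hn0 : (0 : ℝ) < n := by exact_mod_cast hn
  unfold al
  split_ifs with h1
  · rw [norm_zero, zero_pow two_ne_zero]
    positivity
  · rw [← hL]
    by_cases hc : cc (bb θ L 0) n = 0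
    · rw [hc]
      simp
    · have hlt : (Q : ℝ) ^ (θ / 2) < n := by
        by_contra hle
        push Not at hle
        apply hc
        rw [hL]
        exact cc_zero θ Q hθ hQ1 n (by omega) hle
      have hA : (n : ℝ) ^ (-(2 * σ - 1)) ≤ Real.exp (-(θ * (σ - 1 / 2) * L)) := by
        calc (n : ℝ) ^ (-(2 * σ - 1)) ≤ ((Q : ℝ) ^ (θ / 2)) ^ (-(2 * σ - 1)) := by
              apply Real.rpow_le_rpow_of_nonpos (by positivity) hlt.le
              linarith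
          _ = Real.exp (-(θ * (σ - 1 / 2) * L)) := by
              rw [← Real.rpow_mul hQ0.le, Real.rpow_def_of_pos hQ0, hL]
              congr 1
              ring
      have hnQ : (n : ℝ) ≤ (Q : ℝ) ^ (3 / 2 : ℝ) := by
        have h2 : (n : ℝ) ≤ NQ Q := by exact_mod_cast hN
        refine h2.trans ?_
        unfold NQ
        exact Nat.floor_le (by positivity)
      have hB : (n : ℝ) ^ (1 / L) ≤ 5 := by
        calc (n : ℝ) ^ (1 / L) ≤ ((Q : ℝ) ^ (3 / 2 : ℝ)) ^ (1 / L) :=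
              Real.rpow_le_rpow hn0.le hnQ (by positivity)
          _ = Real.exp (3 / 2) := by
              rw [← Real.rpow_mul hQ0.le, Real.rpow_def_of_pos hQ0, ← hL]
              congr 1
              field_simp
          _ ≤ 5 := by
              have h3 : Real.exp (3 / 2) ^ 2 ≤ 5 ^ 2 := by
                rw [← Real.exp_nat_mul]
                have h4 : ((2 : ℕ) : ℝ) * (3 / 2) = 3 * 1 := by norm_num
                rw [h4, show (3 : ℝ) * 1 = ((3 : ℕ) : ℝ) * 1 by norm_num, Real.exp_nat_mul]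
                have h5 := Real.exp_one_lt_d9
                have h6 : Real.exp 1 ^ 3 ≤ (2.7182818286 : ℝ) ^ 3 :=
                  pow_le_pow_left₀ (Real.exp_pos 1).le h5.le 3
                refine h6.trans ?_
                norm_num
              exact le_of_sq_le_sq h3 (by norm_num)
      have hnorm : ‖cc (bb θ L 0) n * (n : ℂ) ^ (-s)‖ ^ 2 =
          ‖cc (bb θ L 0) n‖ ^ 2 * ((n : ℝ) ^ (-(1 + 1 / L)) * ((n : ℝ) ^ (1 / L) *
            (n : ℝ) ^ (-(2 * σ - 1)))) := by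
        rw [norm_mul, mul_pow, Complex.norm_natCast_cpow_of_pos (by omega), ← Real.rpow_natCast
          ((n : ℝ) ^ (-s).re), ← Real.rpow_mul hn0.le, ← Real.rpow_add hn0, ← Real.rpow_add hn0]
        congr 2
        rw [Complex.neg_re, hσ]
        push_cast
        ring
      rw [hnorm]
      have hC : (n : ℝ) ^ (1 / L) * (n : ℝ) ^ (-(2 * σ - 1)) ≤
          5 * Real.exp (-(θ * (σ - 1 / 2) * L)) :=
        mul_le_mul hB hA (by positivity) (by norm_num)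
      calc _ ≤ ‖cc (bb θ L 0) n‖ ^ 2 * ((n : ℝ) ^ (-(1 + 1 / L)) *
            (5 * Real.exp (-(θ * (σ - 1 / 2) * L)))) := by
            apply mul_le_mul_of_nonneg_left _ (by positivity)
            exact mul_le_mul_of_nonneg_left hC (by positivity)
        _ = _ := by ring

/-- AF-MV1 -/
theorem mv1 (hAPX : S_APX) (hMo : SMo) : S_MV1 := by
  intro θ hθ hθ'
  obtain ⟨C0, hC0, hA⟩ := hAPX
  obtain ⟨C1, hC1, hM⟩ := hMo θ hθ (by linarith)
  refine ⟨2 * (60 * C1) + 2 * (4 * C0 ^ 2), 3, by positivity, by norm_num, ?_⟩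
  intro Q hQ s hs1 hs2 hs3
  have hQ3 : 3 ≤ Q := by exact_mod_cast hQ
  have hQ1 : (1 : ℝ) < Q := by linarith
  have hQ0 : (0 : ℝ) < Q := by linarith
  set L : ℝ := Real.log Q with hL
  have hL1 : 1 ≤ L := by
    rw [hL, Real.le_log_iff_exp_le hQ0]
    have := Real.exp_one_lt_d9
    linarith
  set E : ℝ := Real.exp (-(θ * (s.re - 1 / 2) * L)) with hE
  have hE0 : 0 < E := Real.exp_pos _
  -- the length
  have hN1 : 1 ≤ NQ Q := by
    unfold NQ
    rw [Nat.one_le_floor_iff]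
    exact Real.one_le_rpow hQ1.le (by norm_num)
  have hN2 : ((NQ Q : ℕ) : ℝ) ≤ (Q : ℝ) ^ 2 := by
    have h1 : ((NQ Q : ℕ) : ℝ) ≤ (Q : ℝ) ^ (3 / 2 : ℝ) := by
      unfold NQ
      exact Nat.floor_le (by positivity)
    refine h1.trans ?_
    rw [← Real.rpow_natCast]
    exact Real.rpow_le_rpow_of_exponent_le hQ1.le (by norm_num)
  -- first part
  have hfirst : FS Q (fun q χ => ‖SX θ Q q χ s 0 - 1‖ ^ 2) ≤ 60 * C1 * (Q : ℝ) ^ 2 * E := by
    have h1 : FS Q (fun q χ => ‖SX θ Q q χ s 0 - 1‖ ^ 2) =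
        FS Q (fun q χ => ‖∑ n ∈ Icc 1 (NQ Q), al θ Q s n * χ (n : ZMod q)‖ ^ 2) := by
      unfold FS
      refine sum_congr rfl fun q _ => sum_congr rfl fun χ _ => ?_
      show ‖SX θ Q q χ s 0 - 1‖ ^ 2 = ‖∑ n ∈ Icc 1 (NQ Q), al θ Q s n * χ (n : ZMod q)‖ ^ 2
      rw [SX_sub θ Q q hN1 χ s]
    rw [h1]
    refine (FS_sieve Q (NQ Q) (al θ Q s)).trans ?_
    have h2 : ∑ n ∈ Icc 1 (NQ Q), ‖al θ Q s n‖ ^ 2 ≤ 5 * E * C1 := by
      calc _ ≤ ∑ n ∈ Icc 1 (NQ Q), (5 * E) *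
            ((n : ℝ) ^ (-(1 + 1 / L)) * ‖cc (bb θ L 0) n‖ ^ 2) := by
            refine sum_le_sum fun n hn => ?_
            rw [mem_Icc] at hn
            exact al_term θ s.re L Q hθ hQ3 hL s rfl hs1 n hn.1 hn.2
        _ = (5 * E) * ∑ n ∈ Icc 1 (NQ Q),
            ((n : ℝ) ^ (-(1 + 1 / L)) * ‖cc (bb θ L 0) n‖ ^ 2) := by rw [mul_sum]
        _ ≤ (5 * E) * C1 := by
            apply mul_le_mul_of_nonneg_left _ (by positivity)
            have := (hM L 0 hL1).1 (NQ Q)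
            simpa using this
    have h3 : 0 ≤ 5 * E * C1 := by positivity
    calc _ ≤ 6 * (NQ Q + (Q : ℝ) ^ 2) * (5 * E * C1) :=
          mul_le_mul_of_nonneg_left h2 (by positivity)
      _ ≤ 6 * ((Q : ℝ) ^ 2 + (Q : ℝ) ^ 2) * (5 * E * C1) := by
          apply mul_le_mul_of_nonneg_right _ h3
          linarith
      _ = _ := by ring
  -- second part
  have hpoint : ∀ q ∈ Icc 2 Q, ∀ χ ∈ PC q, ‖LF q χ s * MX θ Q q χ s - 1‖ ^ 2 ≤
      2 * ‖SX θ Q q χ s 0 - 1‖ ^ 2 + (2 * (4 * C0 ^ 2 * E)) * 1 := by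
    intro q hq χ hχ
    rw [mem_Icc] at hq
    have h1 := hA θ hθ hθ' Q q hq.1 hq.2 χ hχ s 0 hs1 (by linarith) (by simp)
    rw [add_zero] at h1
    have h2 : C0 * (1 + ‖s‖) * (Q : ℝ) ^ (-(1 / 5) : ℝ) ≤ 2 * C0 * (Q : ℝ) ^ (-(3 / 20) : ℝ) := by
      have h3 : 1 + ‖s‖ ≤ 2 * (Q : ℝ) ^ (1 / 20 : ℝ) := by
        have : 1 ≤ (Q : ℝ) ^ (1 / 20 : ℝ) := Real.one_le_rpow hQ1.le (by norm_num)
        linarith
      calc C0 * (1 + ‖s‖) * (Q : ℝ) ^ (-(1 / 5) : ℝ)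
          ≤ C0 * (2 * (Q : ℝ) ^ (1 / 20 : ℝ)) * (Q : ℝ) ^ (-(1 / 5) : ℝ) := by
            apply mul_le_mul_of_nonneg_right _ (by positivity)
            exact mul_le_mul_of_nonneg_left h3 hC0.le
        _ = 2 * C0 * ((Q : ℝ) ^ (1 / 20 : ℝ) * (Q : ℝ) ^ (-(1 / 5) : ℝ)) := by ring
        _ = _ := by
            rw [← Real.rpow_add hQ0]
            norm_num
    have h4 : ((Q : ℝ) ^ (-(3 / 20) : ℝ)) ^ 2 ≤ E := by
      rw [← Real.rpow_natCast, ← Real.rpow_mul hQ0.le, Real.rpow_def_of_pos hQ0, hE, ← hL]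
      apply Real.exp_le_exp.2
      have h5 : θ * (s.re - 1 / 2) ≤ (1 / 200) * (4 / 10) :=
        mul_le_mul hθ' (by linarith) (by linarith) (by norm_num)
      have h6 : θ * (s.re - 1 / 2) * L ≤ (1 / 200) * (4 / 10) * L :=
        mul_le_mul_of_nonneg_right h5 (by linarith)
      push_cast
      linarith
    have h7 : ‖LF q χ s * MX θ Q q χ s - SX θ Q q χ s 0‖ ^ 2 ≤ 4 * C0 ^ 2 * E := by
      calc _ ≤ (2 * C0 * (Q : ℝ) ^ (-(3 / 20) : ℝ)) ^ 2 :=
            pow_le_pow_left₀ (norm_nonneg _) (h1.trans h2) 2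
        _ = 4 * C0 ^ 2 * ((Q : ℝ) ^ (-(3 / 20) : ℝ)) ^ 2 := by ring
        _ ≤ _ := mul_le_mul_of_nonneg_left h4 (by positivity)
    have h8 : ‖LF q χ s * MX θ Q q χ s - 1‖ ≤ ‖SX θ Q q χ s 0 - 1‖ +
        ‖LF q χ s * MX θ Q q χ s - SX θ Q q χ s 0‖ := by
      have : LF q χ s * MX θ Q q χ s - 1 = (SX θ Q q χ s 0 - 1) +
          (LF q χ s * MX θ Q q χ s - SX θ Q q χ s 0) := by ring
      rw [this]
      exact norm_add_le _ _
    have h9 : ‖LF q χ s * MX θ Q q χ s - 1‖ ^ 2 ≤ (‖SX θ Q q χ s 0 - 1‖ +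
        ‖LF q χ s * MX θ Q q χ s - SX θ Q q χ s 0‖) ^ 2 :=
      pow_le_pow_left₀ (norm_nonneg _) h8 2
    nlinarith [sq_nonneg (‖SX θ Q q χ s 0 - 1‖ - ‖LF q χ s * MX θ Q q χ s - SX θ Q q χ s 0‖)]
  have h10 := FS_mono hpoint
  rw [FS_lin Q (fun q χ => ‖SX θ Q q χ s 0 - 1‖ ^ 2) (fun _ _ => 1) 2 (2 * (4 * C0 ^ 2 * E))] at h10
  have h11 := FS_one Q
  refine h10.trans ?_
  calc _ ≤ 2 * (60 * C1 * (Q : ℝ) ^ 2 * E) + (2 * (4 * C0 ^ 2 * E)) * (Q : ℝ) ^ 2 :=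
        add_le_add (mul_le_mul_of_nonneg_left hfirst (by norm_num))
          (mul_le_mul_of_nonneg_left h11 (by positivity))
    _ = _ := by ring

end Pool.Agent.W683.AF
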